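import Pool.Agent.H97.PRP.Targets2
import Pool.Agent.H36.PRK.L3B

/-!
# MP_e37c09_lc: the sections of the capturing set are small, second version
-/

open Ordinal Cardinal Order Set
open scoped ZFSet

universe u

namespace Pool.Agent.H38.PRP

open _root_.HD HD.PRK HD.PRP

/-- the possible values at the initial segment with the last element `b` -/
noncomputable def Zb (δ μ κ : Ordinal.{u}) (G w : ZFSet.{u}) (b : Ordinal.{u}) : ZFSet.{u} :=
  ZFSet.sep (fun V => Po2 δ μ κ G (w ∩ (succ b).toZFSet) V) (ZFSet.powerset b.toZFSet)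

theorem sz_Zb (h0 : HD.PRK.T_L3B.{u}) {D K : Cardinal.{u}} (hDs : D.IsStrongLimit) (hD0 : ℵ₀ < D)
    (μ : Ordinal.{u}) (G w : ZFSet.{u}) (b : Ordinal.{u}) :
    ∃ ν < D, NF.Sz ν (Zb D.ord μ K.ord G w b) := by
  by_cases hne : ∃ V, V ∈ Zb D.ord μ K.ord G w b
  · obtain ⟨V0, hV0⟩ := hne
    unfold Zb at hV0
    rw [ZFSet.mem_sep] at hV0
    obtain ⟨-, a, haK, hlim, haw, hfew, -, -⟩ := hV0
    refine h0 D K hDs hD0 μ _ hfew a haK hlim _ fun V hV => ?_
    unfold Zb at hV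
    rw [ZFSet.mem_sep] at hV
    obtain ⟨-, a', -, -, haw', -, hVa, hpos⟩ := hV
    have haa : a' = a := Ordinal.toZFSet_injective (haw'.trans haw.symm)
    subst haa
    exact ⟨hVa, hpos⟩
  · exact ⟨0, lt_of_lt_of_le Cardinal.aleph0_pos hD0.le, fun _ => ∅,
      fun V hV => absurd ⟨V, hV⟩ hne⟩

theorem pf_VDT (h0 : HD.PRK.T_L3B.{u}) : HD.PRP.T_VDT.{u} := by
  classical
  intro D K hDr hDs hD0 hKr hDK μ hμ G w
  by_cases hw : w ⊆ K.ord.toZFSet ∧ ∃ h : Ordinal.{u} → Ordinal.{u}, ∀ a : Ordinal.{u},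
      a.toZFSet ∈ w → ∃ i < μ, h i = a
  · obtain ⟨hwK, h, hh⟩ := hw
    -- the bounded points
    have hWfew : Few D.ord {b : Ordinal.{u} | b.toZFSet ∈ w ∧ Bnd w b} :=
      ⟨μ, hμ, h, fun b hb => hh b hb.1⟩
    have hSfew : Few D.ord (⋃ b ∈ {b : Ordinal.{u} | b.toZFSet ∈ w ∧ Bnd w b},
        Pool.Agent.H97.PRK.vDel b (Zb D.ord μ K.ord G w b)) := by
      rw [few_iff]
      rw [few_iff] at hWfew
      rw [Cardinal.card_biUnion_lt_iff_forall_of_isRegular (Cardinal.IsRegular.lift hDr) hWfew]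
      intro b _
      obtain ⟨ν, hν, hs⟩ := sz_Zb h0 hDs hD0 μ G w b (K := K)
      exact few_iff.1 (Pool.Agent.H97.PRK.few_vDel hD0.le hν hs)
    -- all values
    obtain ⟨ν, hν, e, he⟩ := Pool.Agent.H36.PRK.sz_of_inj hDs hSfew
      (Z := ZFSet.sep (fun Y => Val D.ord μ K.ord G w Y) (ZFSet.powerset K.ord.toZFSet))
      (fun Y => {s | s.1.toZFSet ∈ Y.1}) (by
        rintro ⟨Y1, hY1⟩ ⟨Y2, hY2⟩ h12
        rw [ZFSet.mem_sep, ZFSet.mem_powerset] at hY1 hY2
        obtain ⟨hs1, -, hu1, hp1⟩ := hY1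
        obtain ⟨hs2, -, hu2, hp2⟩ := hY2
        by_contra hne
        have hne' : Y1 ≠ Y2 := fun h => hne (Subtype.ext h)
        have hex : ∃ i : Ordinal.{u}, ¬ (i.toZFSet ∈ Y1 ↔ i.toZFSet ∈ Y2) := by
          by_contra hcon
          push Not at hcon
          apply hne'
          ext z
          constructor
          · intro hz
            obtain ⟨a, ha, rfl⟩ := mem_toZFSet_iff.1 (hs1 hz)
            exact (hcon a).1 hz
          · intro hz
            obtain ⟨a, ha, rfl⟩ := mem_toZFSet_iff.1 (hs2 hz)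
            exact (hcon a).2 hz
        obtain ⟨n, hn, hmin⟩ := WellFounded.has_min (wellFounded_lt (α := Ordinal.{u}))
          {i | ¬ (i.toZFSet ∈ Y1 ↔ i.toZFSet ∈ Y2)} hex
        have hn' : ¬ (n.toZFSet ∈ Y1 ↔ n.toZFSet ∈ Y2) := hn
        have hbelow : ∀ k ∈ n.toZFSet, k ∈ Y1 ↔ k ∈ Y2 := by
          intro k hk
          obtain ⟨k, hk', rfl⟩ := mem_toZFSet_iff.1 hk
          by_contra hcon
          exact hmin k hcon hk'
        -- an element of `w` above `n`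
        have hnw : n.toZFSet ∈ (ZFSet.sUnion w : ZFSet.{u}) := by
          by_cases h1 : n.toZFSet ∈ Y1
          · exact hu1 h1
          · have h2 : n.toZFSet ∈ Y2 := by
              by_contra h2
              exact hn' ⟨fun h => absurd h h1, fun h => absurd h h2⟩
            exact hu2 h2
        obtain ⟨c, hc, hnc⟩ := ZFSet.mem_sUnion.1 hnw
        obtain ⟨c, hcK, rfl⟩ := mem_toZFSet_iff.1 (hwK hc)
        have hnc' : n < c := toZFSet_mem_toZFSet_iff.1 hnc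
        obtain ⟨b, ⟨hbw, hnb⟩, hbmin⟩ := WellFounded.has_min (wellFounded_lt (α := Ordinal.{u}))
          {b | b.toZFSet ∈ w ∧ n < b} ⟨c, hc, hnc'⟩
        have hBnd : Bnd w b := by
          refine ⟨n, hnb, fun b' hb' hb'w => ?_⟩
          by_contra hcon
          exact hbmin b' ⟨hb'w, not_le.1 hcon⟩ hb'
        have hV1 : Y1 ∩ b.toZFSet ∈ Zb D.ord μ K.ord G w b := by
          unfold Zb
          rw [ZFSet.mem_sep, ZFSet.mem_powerset]
          exact ⟨fun z hz => (ZFSet.mem_inter.1 hz).2, hp1 b hbw hBnd⟩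
        have hV2 : Y2 ∩ b.toZFSet ∈ Zb D.ord μ K.ord G w b := by
          unfold Zb
          rw [ZFSet.mem_sep, ZFSet.mem_powerset]
          exact ⟨fun z hz => (ZFSet.mem_inter.1 hz).2, hp2 b hbw hBnd⟩
        have hnb' : n.toZFSet ∈ b.toZFSet := toZFSet_mem_toZFSet_iff.2 hnb
        have hnD : n ∈ Pool.Agent.H97.PRK.vDel b (Zb D.ord μ K.ord G w b) := by
          by_cases h1 : n.toZFSet ∈ Y1
          · have h2 : n.toZFSet ∉ Y2 := fun h => hn' ⟨fun _ => h, fun _ => h1⟩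
            refine ⟨hnb, _, hV1, _, hV2, ZFSet.mem_inter.2 ⟨h1, hnb'⟩,
              fun h => h2 (ZFSet.mem_inter.1 h).1, fun k hk => ?_⟩
            rw [ZFSet.mem_inter, ZFSet.mem_inter, hbelow k hk]
          · have h2 : n.toZFSet ∈ Y2 := by
              by_contra h2
              exact hn' ⟨fun h => absurd h h1, fun h => absurd h h2⟩
            refine ⟨hnb, _, hV2, _, hV1, ZFSet.mem_inter.2 ⟨h2, hnb'⟩,
              fun h => h1 (ZFSet.mem_inter.1 h).1, fun k hk => ?_⟩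
            rw [ZFSet.mem_inter, ZFSet.mem_inter, hbelow k hk]
        have hnS : n ∈ (⋃ b ∈ {b : Ordinal.{u} | b.toZFSet ∈ w ∧ Bnd w b},
            Pool.Agent.H97.PRK.vDel b (Zb D.ord μ K.ord G w b)) :=
          Set.mem_biUnion (show b ∈ {b : Ordinal.{u} | b.toZFSet ∈ w ∧ Bnd w b} from ⟨hbw, hBnd⟩)
            hnD
        have h7 := Set.ext_iff.1 h12 ⟨n, hnS⟩
        exact hn' h7)
    refine ⟨ν, Cardinal.ord_lt_ord.2 hν, e, fun Y hY => he Y ?_⟩
    unfold DV2 at hY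
    rw [ZFSet.mem_sep, ZFSet.pair_mem_prod, ZFSet.mem_powerset, ZFSet.mem_powerset] at hY
    obtain ⟨⟨-, hYK⟩, w', Y', hp, hV⟩ := hY
    obtain ⟨rfl, rfl⟩ := ZFSet.pair_injective hp
    rw [ZFSet.mem_sep, ZFSet.mem_powerset]
    exact ⟨hYK, hV⟩
  · refine ⟨0, ?_, fun _ => ∅, fun Y hY => ?_⟩
    · exact Cardinal.ord_lt_ord.2 (lt_of_lt_of_le Cardinal.aleph0_pos hD0.le)
    · exfalso
      unfold DV2 at hY
      rw [ZFSet.mem_sep, ZFSet.pair_mem_prod, ZFSet.mem_powerset, ZFSet.mem_powerset] at hY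
      obtain ⟨⟨hwK, -⟩, w', Y', hp, hV⟩ := hY
      obtain ⟨rfl, rfl⟩ := ZFSet.pair_injective hp
      exact hw ⟨hwK, hV.1⟩

end Pool.Agent.H38.PRP
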